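import Pool.Agent.R749.SCT.Main
import Pool.Agent.R749.SCT.Space
import Pool.Agent.R749.SCT.Dim

/-!
# A one-dimensional space of strong computable type that properly contains a copy of itself

`X` is the space of all sequences `x` in the circle `ℝ ∪ {∞}` with `x (n+1) = g (x n)` whenever
`x n ≠ ∞`, where `g t = t sin t`. It is the closure of the injectively embedded line of all
`(t, g t, g (g t), …)`, the remainder is the set of all `(∞, x 0, x 1, …)`, a copy of `X`. The
complement of each open interval of the line is connected. Hence a ball meets a copy of `X` iff,
for one of two fixed reference intervals, it can be completed by finitely many balls to a cover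
which falls apart, outside of this ball and of the reference interval, into two formally disjoint
parts, one at each end of the reference interval.
-/

set_option autoImplicit false

namespace Pool.Agent.Results.MP_975a4b_lc.SelfContaining

open R749SCT

/-- There is a compact metrizable space of covering dimension at most one which has strong
computable type and properly contains a copy of itself. -/
theorem result : ∃ (X : Type) (_ : TopologicalSpace X), CompactSpace X ∧
    TopologicalSpace.MetrizableSpace X ∧ CoveringDimLE X 1 ∧ StrongComputableType X ∧
    ProperlyContainsCopy X :=
  ⟨XX, inferInstance, inferInstance, inferInstance, coveringDimLE_XX,
    sct_of_line Phi continuous_Phi Phi_injective denseRange_Phi isOpen_Phi_Ioo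
      (fun h => isPreconnected_compl h), properlyContainsCopy_XX⟩

end Pool.Agent.Results.MP_975a4b_lc.SelfContaining
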